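import Pool.Agent.Lib.H47X.D

/-!
# H47Y, file D: Theorem T and Theorem H+ in one theorem, definitions

As `H47X.CC`, `H47X.YX`, with a monotone property `W` (winning) in the place of `H47X.HasTh`.
-/

set_option autoImplicit false

namespace H47Y

open Finset H98P H98Z H98M H63F H96H H47T H47X

/-- The families which are allowed over feasible points: all cuts are unstable, and `W` holds or `G` contains `st` and
some edge `ab` of `G - s - t` is separated by no cut of the family which separates `s` and `t`. -/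
def CY {V : Type*} [Fintype V] [DecidableEq V] (s t : V) (W : Prop) (G : Finset (Sym2 V)) (T : Finset (H56V.Sp V s)) :
    Prop :=
  H56V.LP s T ∧ (∀ S : {S : NCut V // s ∉ S.1}, (Sum.inr S : H56V.Sp V s) ∈ T → Uns G S.1.1) ∧
    (W ∨ s(s, t) ∈ G ∧ ∃ a b : V, a ≠ b ∧ a ≠ s ∧ a ≠ t ∧ b ≠ s ∧ b ≠ t ∧ s(a, b) ∈ G ∧
      ∀ S : {S : NCut V // s ∉ S.1}, (Sum.inr S : H56V.Sp V s) ∈ T → t ∈ S.1.1 → (a ∈ S.1.1 ↔ b ∈ S.1.1))

/-- The sets of the two-copy carrier. -/
def YZ {V : Type*} [Fintype V] [DecidableEq V] (s t : V) (M : ℝ) (W : Finset (Sym2 V) → Prop) (G : Finset (Sym2 V))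
    (T : Finset (H56V.Sp V s × Bool)) : Set (Sym2 V → ℝ) :=
  {x | x ∈ Sx G ∧ H56V.LP s (T.image Prod.fst) ∧
    (∀ S, (S, false) ∈ T → ∀ S', pyS s t M x S ≤ pyS s t M x S') ∧
    ((∀ S, (S, true) ∉ T) ∨ (Feas s t M x ∧ CY s t (W G) G (T.image Prod.fst)))}

/-- The minimizing families at `x`. -/
def MN {V : Type*} [Fintype V] [DecidableEq V] (s t : V) (M : ℝ) (x : Sym2 V → ℝ) (T : Finset (H56V.Sp V s)) : Prop :=
  H56V.LP s T ∧ ∀ S ∈ T, ∀ S', pyS s t M x S ≤ pyS s t M x S'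

/-- `G` is winning: it contains `st` and a theta graph with at most `M + 2` paths, or it has feasible weights which
vanish at `st` and whose minimizing families do not form an acyclic complex. -/
def WG {V : Type*} [Fintype V] [DecidableEq V] (s t : V) (M : ℝ) (G : Finset (Sym2 V)) : Prop :=
  HasTh s t M G ∨ ∃ y ∈ Sx G, y s(s, t) = 0 ∧ Feas s t M y ∧ ¬ AC (MN s t M y)

theorem wg_mono {V : Type*} [Fintype V] [DecidableEq V] {s t : V} {M : ℝ} {G G' : Finset (Sym2 V)} (h : G ⊆ G')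
    (hW : WG s t M G) : WG s t M G' := by
  rcases hW with ⟨h1, L, ⟨h2, h3, h4, h5⟩, h6⟩ | ⟨y, ⟨h1, h2, h3⟩, h4, h5, h6⟩
  · exact Or.inl ⟨h h1, L, ⟨h2, h3, h4, fun l hl => (h5 l hl).imp fun a b hab => h hab⟩, h6⟩
  · exact Or.inr ⟨y, ⟨h1, fun e he => h2 e fun he' => he (h he'), h3⟩, h4, h5, h6⟩

end H47Y
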