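import Pool.Agent.Lib.H47Y.D
import Pool.Agent.Lib.H47X.PI
import Pool.Agent.Lib.H47T.C2
import Pool.Agent.Lib.H47T.N
import Pool.Agent.Lib.H47T.A0

/-! # H47Y, file Q: the carriers are safe (adapted from H47X/Q.lean, helper38) -/

set_option autoImplicit false

namespace H47Y

open Finset H98P H98Z H98M H63F H96H H47T H47X

variable {V : Type*} [Fintype V] [DecidableEq V]

/-- As `H47X.safeX`. -/
theorem safeY (hV : 4 ≤ Fintype.card V) {s t : V} (hst : s ≠ t) {M : ℝ} (hM : 0 ≤ M) {W : Finset (Sym2 V) → Prop}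
    {G : Finset (Sym2 V)} (hG : ∀ v, s(v, v) ∉ G) {T : Finset (H56V.Sp V s × Bool)} {x : Sym2 V → ℝ} (hx : x ∈ YZ s t M W G T)
    {μ : H56V.Sp V s → ℝ} (hμ : μ ∈ Sx (T.image Prod.fst)) (hmax : Amax (pS s t M) μ G) : False := by
  classical
  obtain ⟨hxG, hLP, hmin, hcase⟩ := hx
  obtain ⟨hx0, hx1, hx2⟩ := hxG
  have hl : ∀ v, x s(v, v) = 0 := fun v => hx1 _ (hG v)
  obtain ⟨hLL, μ', hμ', hio, hmm, hsum⟩ := push_io (s := s) (t := t) (M := M) hLP hμ
  have hmax' : Amax (pT s t M) μ' G := by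
    intro e he f
    rw [hmm e, hmm f]
    exact hmax e he f
  obtain ⟨h0, h1, h2⟩ := hμ
  have hpv : ∀ v : V, pyS s t M x (Sum.inl v) = cutw x {v} - rq s t M {v} := fun v => py_pos hx2 hl v
  refine no_mu hV hst hM hG ⟨hx0, hx1, hx2⟩ hLL hμ' hmax' ?_
  rw [hsum x]
  rcases hcase with hno | ⟨hfeas, hCC⟩
  · have hex : ∃ v : V, pyS s t M x (Sum.inl v) ≤ 0 := by
      by_contra hcon
      push Not at hcon
      have h3 : 0 < ∑ v : V, (cutw x {v} - rq s t M {v}) := by
        refine Finset.sum_pos (fun v _ => ?_) ⟨s, Finset.mem_univ s⟩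
        rw [← hpv v]
        exact hcon v
      rw [sum_dev hst hM hx2 hl] at h3
      exact lt_irrefl _ h3
    obtain ⟨v, hv⟩ := hex
    refine Finset.sum_nonpos fun S _ => ?_
    by_cases hS : S ∈ T.image Prod.fst
    · obtain ⟨⟨S', b⟩, hSb, hSS⟩ := Finset.mem_image.1 hS
      simp only at hSS
      subst hSS
      have hf : (S', false) ∈ T := by
        cases b with
        | false => exact hSb
        | true => exact absurd hSb (hno S')
      exact mul_nonpos_of_nonneg_of_nonpos (h0 _) ((hmin S' hf (Sum.inl v)).trans hv)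
    · rw [h1 S hS, zero_mul]
  · have hU : ∀ S : NCut V, (Sum.inr S : St V) ∈ (T.image Prod.fst).image H56V.io → Uns G S.1 := by
      intro S hS
      obtain ⟨a, ha, ha1⟩ := Finset.mem_image.1 hS
      rcases a with w | S1
      · exact absurd ha1 (by simp [H56V.io])
      · have h3 : S1.1 = S := Sum.inr_injective ha1
        rw [← h3]
        exact hCC.2.1 S1 ha
    refine le_of_eq (Finset.sum_eq_zero fun S _ => ?_)
    rcases S with w | S
    · rw [hpv w, hfeas.1 w, sub_self, mul_zero]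
    · rw [← hio (Sum.inr S)]
      have h3 : μ' (H56V.io (Sum.inr S : H56V.Sp V s)) = 0 := cuts_zero hLL hU hμ' hmax' S.1
      rw [h3, zero_mul]

end H47Y
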