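import Pool.Agent.Lib.H47Y.Y
import Pool.Agent.Lib.H47X.E
import Pool.Agent.Lib.H47X.K2
import Pool.Agent.Lib.H47X.A3
import Pool.Agent.Lib.H47X.G1
import Pool.Agent.Lib.H47X.G2
import Pool.Agent.Lib.H47T.T
import Pool.Agent.Lib.H47T.X1

/-! # H47Y, file Z: the fibres of the carrier -/

set_option autoImplicit false

namespace H47Y

open Finset H98P H98Z H98M H63F H96H H47T H47X

variable {V : Type*} [Fintype V] [DecidableEq V]

/-- Minimizing families over a feasible point are allowed. -/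
theorem mn_cy (hV : 4 ≤ Fintype.card V) {s t : V} (hst : s ≠ t) {M : ℝ} (hM : 0 ≤ M)
    {G : Finset (Sym2 V)} (hG : ∀ v, s(v, v) ∉ G) {W : Prop} (hW : HasTh s t M G → W) (hcase : W ∨ s(s, t) ∈ G)
    {x : Sym2 V → ℝ} (hx : x ∈ Sx G) (hF : Feas s t M x) {τ : Finset (H56V.Sp V s)} (hL : MN s t M x τ) :
    CY s t W G τ := by
  classical
  have h1 : ∑ e, x e = 1 := hx.2.2
  have hl : ∀ v, x s(v, v) = 0 := fun v => hx.2.1 _ (hG v)
  have htight : ∀ S : {S : NCut V // s ∉ S.1}, (Sum.inr S : H56V.Sp V s) ∈ τ → cutw x S.1.1 = rq s t M S.1.1 :=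
    fun S hS => min_of_feasX hV h1 hl hF S (hL.2 _ hS)
  refine ⟨hL.1, fun S hS => tight_uns hst hM hx hG hF S.1 (htight S hS), ?_⟩
  rcases hcase with h | hstG
  · exact Or.inl h
  by_contra hc
  rw [not_or] at hc
  obtain ⟨hnW, hc⟩ := hc
  obtain ⟨L, hL1, hL2⟩ := theta_of_tight hst hM hx hG hF
    (univ.filter fun S : NCut V => ∃ h : s ∉ S.1, (Sum.inr ⟨S, h⟩ : H56V.Sp V s) ∈ τ ∧ t ∈ S.1)
    (fun S hS => by
      obtain ⟨-, h, h2, h3⟩ := mem_filter.1 hS
      exact ⟨fun h4 => h (h4.2 h3), htight ⟨S, h⟩ h2⟩)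
    (fun S hS S' hS' => by
      obtain ⟨-, h, h2, h3⟩ := mem_filter.1 hS
      obtain ⟨-, h', h2', h3'⟩ := mem_filter.1 hS'
      exact hL.1.1 ⟨S, h⟩ ⟨S', h'⟩ h2 h2')
    (fun a b hab ha1 ha2 hb1 hb2 he => by
      by_contra hno
      refine hc ⟨hstG, a, b, hab, ha1, ha2, hb1, hb2, he, fun S hS ht => ?_⟩
      by_contra hne
      exact hno ⟨S.1, mem_filter.2 ⟨mem_univ _, S.2, hS, ht⟩, hne⟩)
  exact hnW (hW ⟨hstG, L, hL1, hL2⟩)

/-- The complex over winning `G`. -/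
theorem ack_CY (hV : 4 ≤ Fintype.card V) {s t : V} {G : Finset (Sym2 V)} (hG : ∀ v, s(v, v) ∉ G) {W : Prop} (hW : W)
    (hcls : H56V.Cls {s} G) {k : ℕ} (hk : k + 5 ≤ 2 * Fintype.card V) : H70H.ACk k (CY s t W G) := by
  refine H70H.ack_congr (fun T => ?_) (ack_LG hV hG s hcls hk)
  constructor
  · rintro ⟨h1, h2⟩
    refine ⟨h1, fun S hS => ?_, Or.inl hW⟩
    obtain ⟨⟨u, hu, w, hw, h3⟩, u', hu', w', hw', h4⟩ := h2 S hS
    refine ⟨⟨u, hu, w, hw, ?_, h3⟩, u', hu', w', hw', ?_, h4⟩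
    · rintro rfl
      exact hG u h3
    · rintro rfl
      exact hG u' h4
  · rintro ⟨h1, h2, -⟩
    refine ⟨h1, fun S hS => ?_⟩
    obtain ⟨⟨u, hu, w, hw, -, h3⟩, u', hu', w', hw', -, h4⟩ := h2 S hS
    exact ⟨⟨u, hu, w, hw, h3⟩, u', hu', w', hw', h4⟩

/-- The complex over `G` with `st` which is not winning. -/
theorem ac_CY {s t : V} (hst : s ≠ t) {M : ℝ} {G : Finset (Sym2 V)} (hG : s(s, t) ∈ G) {W : Prop}
    (hW : HasTh s t M G → W) (hno : ¬ W) : AC (CY s t W G) := by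
  have h : CY s t W G = CC s t M G := by
    funext T
    refine propext ⟨fun h => ⟨h.1, h.2.1, ?_⟩, fun h => ⟨h.1, h.2.1, ?_⟩⟩
    · exact Or.inr (h.2.2.resolve_left hno).2
    · exact Or.inr ⟨hG, h.2.2.resolve_left fun h1 => hno (hW h1)⟩
  rw [h]
  exact ac_CC hst hG fun h1 => hno (hW h1)

/-- The fibres have trivial truncated homology. -/
theorem fiberY (hV : 4 ≤ Fintype.card V) {s t : V} (hst : s ≠ t) {M : ℝ} (hM : 0 ≤ M) (W : Finset (Sym2 V) → Prop)
    {G : Finset (Sym2 V)} (hG : ∀ v, s(v, v) ∉ G) (hne : G.Nonempty) (hW : HasTh s t M G → W G)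
    (hcard : W G → G.card + 4 ≤ 2 * Fintype.card V)
    (hF : ∀ x ∈ Sx G, Feas s t M x → s(s, t) ∉ G → ¬ W G → AC (MN s t M x))
    {x : Sym2 V → ℝ} (hx : x ∈ YZ s t M W G ∅) : H70H.ACk (G.card - 1) fun T => x ∈ YZ s t M W G T := by
  have hxS : x ∈ Sx G := hx.1
  have h0 : ∀ e, 0 ≤ x e := hxS.1
  have h1 : ∑ e, x e = 1 := hxS.2.2
  have hl : ∀ v, x s(v, v) = 0 := fun v => hxS.2.1 _ (hG v)
  have hcN : 0 < G.card := card_pos.2 hne
  by_cases hcase : (W G ∨ s(s, t) ∈ G) ∧ Feas s t M x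
  · obtain ⟨hWG, hFx⟩ := hcase
    refine H70H.ack_congr (K := fun T : Finset (H56V.Sp V s × Bool) => CY s t (W G) G (T.image Prod.fst) ∧
      ∀ S, (S, false) ∈ T → (fun S : H56V.Sp V s => ∀ S', pyS s t M x S ≤ pyS s t M x S') S) (fun T => ?_) ?_
    · constructor
      · intro h
        exact ⟨hxS, h.1.1, h.2, Or.inr ⟨hFx, h.1⟩⟩
      · intro h
        obtain ⟨-, h2, h3, h4⟩ := h
        refine ⟨?_, h3⟩
        rcases h4 with h4 | h4
        · refine mn_cy hV hst hM hG hW hWG hxS hFx ⟨h2, fun S hS => ?_⟩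
          obtain ⟨⟨S₁, b⟩, hq1, hq2⟩ := mem_image.1 hS
          cases b
          · have : S₁ = S := hq2
            subst this
            exact h3 _ hq1
          · exact absurd hq1 (h4 S₁)
        · exact h4.2
    · refine ack_double (dn_CY s t (W G) G) ?_ _
      by_cases hWG' : W G
      · refine ack_CY hV hG hWG' (cls_feas hV hst hM hG hxS hFx s) ?_
        have := hcard hWG'
        omega
      · exact H70H.ack_of_ac _ (ac_CY hst (hWG.resolve_left hWG') hW hWG')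
  · have hK : AC (MN s t M x) := by
      by_cases hFx : Feas s t M x
      · have h2 : ¬ (W G ∨ s(s, t) ∈ G) := fun h => hcase ⟨h, hFx⟩
        rw [not_or] at h2
        exact hF x hxS hFx h2.2 h2.1
      · exact hyp_aX hV hst hM h0 h1 hl hFx
    refine H70H.ack_congr (K := fun T : Finset (H56V.Sp V s × Bool) => (∀ q ∈ T, q.2 = false) ∧
      MN s t M x (T.image Prod.fst)) (fun T => ?_) (ack_copy false (H70H.ack_of_ac _ hK))
    constructor
    · rintro ⟨h2, h3, h4⟩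
      refine ⟨hxS, h3, fun S hS => h4 S (mem_image_of_mem Prod.fst hS), Or.inl fun S hS => ?_⟩
      exact absurd (h2 _ hS) (by simp)
    · intro h
      obtain ⟨-, h2, h3, h4⟩ := h
      have h5 : ∀ S, (S, true) ∉ T := by
        rcases h4 with h4 | h4
        · exact h4
        · refine absurd ⟨?_, h4.1⟩ hcase
          rcases h4.2.2.2 with h5 | h5
          · exact Or.inl h5
          · exact Or.inr h5.1
      refine ⟨?_, h2, ?_⟩
      · rintro ⟨S, b⟩ hq
        cases b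
        · rfl
        · exact absurd hq (h5 S)
      · intro S hS
        obtain ⟨⟨S₁, b⟩, hq1, hq2⟩ := mem_image.1 hS
        cases b
        · have : S₁ = S := hq2
          subst this
          exact h3 _ hq1
        · exact absurd hq1 (h5 S₁)

end H47Y
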