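import Pool.Agent.Lib.H47Y.Y
import Pool.Agent.Lib.H47Y.Z
import Pool.Agent.Lib.H47Y.Q
import Pool.Agent.Lib.H47X.P3
import Pool.Agent.Lib.H47X.B
import Pool.Agent.Lib.H96H.B1
import Pool.Agent.Lib.H56V.K
import Pool.Agent.Lib.H56V.Q3
import Pool.Agent.Lib.H47T.X1

/-! # H47Y, file H: winning plane sets with exactly `2n - 3` edges -/

set_option autoImplicit false

namespace H47Y

open Finset H98P H98Z H98M H63F H96H H47T H47X

variable {V : Type*} [Fintype V] [DecidableEq V]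

private theorem ty_dnK (cross : Sym2 V → Sym2 V → Prop) : Dn (KK cross) := by
  intro a b hab hb
  exact ⟨fun e he f hf => hb.1 e (hab he) f (hab hf), fun v hv => hb.2 v (hab hv)⟩

private theorem ty_L0 (s : V) : H56V.LP s (∅ : Finset (H56V.Sp V s)) :=
  ⟨fun S S' h => absurd h (notMem_empty _), s, notMem_empty _⟩

/-- THE CORE THEOREM. For all real `M ≥ 0` some plane `G` with exactly `2n - 3` edges is winning. -/
theorem coreY (hV : 4 ≤ Fintype.card V) {cross : Sym2 V → Sym2 V → Prop}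
    (hsymm : ∀ e f, cross e f → cross f e) (hHD : ∀ W : Finset V, HD cross W) {s t : V} (hst : s ≠ t) {M : ℝ}
    (hM : 0 ≤ M) :
    ∃ G : Finset (Sym2 V), KK cross G ∧ G.card + 3 = 2 * Fintype.card V ∧ WG s t M G := by
  by_contra hng
  have hs2 : Nonempty (Sym2 V) := ⟨s(s, s)⟩
  have hK0 : KK cross (∅ : Finset (Sym2 V)) :=
    ⟨fun e he => absurd he (notMem_empty _), fun v hv => absurd hv (notMem_empty _)⟩
  obtain ⟨G, T, hGn, hGK, ⟨x, hx⟩, μ, hμ, hmax⟩ := traceX (pS s t M) (KK cross)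
    (H56V.LP s) (ty_dnK cross) (dn_LP s) hK0 (ty_L0 s) (ac_KK hV hsymm hHD)
    (2 * Fintype.card V - 4)
    (fun T hT => by
      have h := H56V.card_LP hV hT
      omega)
    (YZ s t M (WG s t M)) (YZ_compact s t M _) (YZ_convex s t M _) (YZ_anti s t M _)
    (YZ_mono s t M _ fun G G' h hW => wg_mono h hW)
    (fun G T h => by
      obtain ⟨x, hx⟩ := h
      exact hx.2.1)
    (fun G hG => YZ_empty s t M _ hG)
    (fun G hG hGn hGc x hx => fiberY hV hst hM (WG s t M) hG.2 hGn Or.inl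
      (fun hW => by
        have h1 : G.card + 3 ≠ 2 * Fintype.card V := fun h => hng ⟨G, hG, h, hW⟩
        omega)
      (fun x hxG hF hstG hnW => by
        by_contra hac
        exact hnW (Or.inr ⟨x, hxG, hxG.2.1 _ hstG, hF, hac⟩)) hx)
    (fun T hT μ hμ => hyp_bX hV hsymm hHD hM hT hμ)
  exact safeY hV hst hM hGK.2 hx hμ hmax

/-- THEOREM T, exact form: `M = n`. -/
theorem theoremTY (hV : 4 ≤ Fintype.card V) {cross : Sym2 V → Sym2 V → Prop}
    (hsymm : ∀ e f, cross e f → cross f e) (hHD : ∀ W : Finset V, HD cross W) {s t : V} (hst : s ≠ t) :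
    ∃ G : Finset (Sym2 V), KK cross G ∧ G.card + 3 = 2 * Fintype.card V ∧ s(s, t) ∈ G ∧
      ∃ L : List (List V), Th s t G L := by
  obtain ⟨G, hG, hc, ⟨h1, L, hL, -⟩ | ⟨x, hx, h0, hF, -⟩⟩ :=
    coreY hV hsymm hHD hst (Nat.cast_nonneg (Fintype.card V))
  · exact ⟨G, hG, hc, h1, L, hL⟩
  · have h2 := feas_st hst hV hx.1 hx.2.2 (fun v => hx.2.1 _ (hG.2 v)) hF
    rw [h0] at h2
    exact absurd h2 (lt_irrefl _)

private theorem ty_rq (s t : V) (S : Finset V) : rq s t 0 S = 2 / (Fintype.card V : ℝ) := by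
  unfold rq
  rw [ite_self, add_zero, add_zero]

private theorem ty_pS (s t : V) : (pS s t 0 : Sym2 V → H56V.Sp V s → ℝ) = H56V.pq s := by
  funext e S
  rcases S with v | S
  · show (if e.IsDiag then (-10 : ℝ) else (if (true : Bool) = true then 1 else -1) * (px e {v} - rq s t 0 {v})) =
      if e.IsDiag then (-10 : ℝ) else (if (true : Bool) = true then 1 else -1) *
        (px e {v} - 2 / (Fintype.card V : ℝ))
    rw [ty_rq]
  · show (if e.IsDiag then (-10 : ℝ) else px e S.1.1 - rq s t 0 S.1.1) =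
      if e.IsDiag then (-10 : ℝ) else px e S.1.1 - 2 / (Fintype.card V : ℝ)
    rw [ty_rq]

/-- For `M = 0` feasible points whose minimizing families do not form an acyclic complex are good. -/
theorem good_of_not_ac (hV : 4 ≤ Fintype.card V) {s t : V} (hst : s ≠ t) {G : Finset (Sym2 V)}
    (hG : ∀ v, s(v, v) ∉ G) {x : Sym2 V → ℝ} (hx : x ∈ Sx G) (hF : Feas s t 0 x) (hac : ¬ AC (MN s t 0 x)) :
    Good x := by
  by_contra hg
  refine hac ?_
  have h2 := H56V.hyp_aP (r := s) hV hG hx hg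
  have h3 : MN s t 0 x = fun T : Finset (H56V.Sp V s) => H56V.LG s G T ∧ Amin (H56V.pq s) (fun _ => 0) x T := by
    funext T
    have h4 : ∀ S : H56V.Sp V s, pyS s t 0 x S = pay (H56V.pq s) (fun _ => 0) x S := by
      intro S
      rw [← ty_pS s t]
      rfl
    refine propext ⟨fun h => ⟨⟨h.1, fun S hS => ?_⟩, fun S hS S' => ?_⟩, fun h => ⟨h.1.1, fun S hS S' => ?_⟩⟩
    · have h5 := (mn_cy hV hst (le_refl (0 : ℝ)) hG (W := True) (fun _ => trivial) (Or.inl trivial) hx hF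
        (τ := T) h).2.1 S hS
      obtain ⟨⟨u, hu, w, hw, -, h3⟩, u', hu', w', hw', -, h4⟩ := h5
      exact ⟨⟨u, hu, w, hw, h3⟩, u', hu', w', hw', h4⟩
    · rw [← h4, ← h4]
      exact h.2 S hS S'
    · rw [h4, h4]
      exact h.2 S hS S'
  rw [h3]
  exact h2

/-- The uniform theorem. -/
theorem uniform (hV : 4 ≤ Fintype.card V) {cross : Sym2 V → Sym2 V → Prop}
    (hsymm : ∀ e f, cross e f → cross f e) (hHD : ∀ W : Finset V, HD cross W) {s t : V} (hst : s ≠ t) {M : ℝ}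
    (hM : 0 ≤ M) :
    ∃ G : Finset (Sym2 V), KK cross G ∧ G.card + 3 = 2 * Fintype.card V ∧
      (HasTh s t M G ∨ ∃ x ∈ Sx G, x s(s, t) = 0 ∧ Feas s t M x ∧ (M = 0 → Good x)) := by
  obtain ⟨G, hG, hc, h | ⟨x, hx, h0, hF, hac⟩⟩ := coreY hV hsymm hHD hst hM
  · exact ⟨G, hG, hc, Or.inl h⟩
  · refine ⟨G, hG, hc, Or.inr ⟨x, hx, h0, hF, ?_⟩⟩
    rintro rfl
    exact good_of_not_ac hV hst hG.2 hx hF hac

/-- THEOREM H+ WITH A FORBIDDEN EDGE: `M = 0`. -/
theorem theoremHY (hV : 4 ≤ Fintype.card V) {cross : Sym2 V → Sym2 V → Prop}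
    (hsymm : ∀ e f, cross e f → cross f e) (hHD : ∀ W : Finset V, HD cross W) {s t : V} (hst : s ≠ t) :
    ∃ G : Finset (Sym2 V), KK cross G ∧ G.card + 3 = 2 * Fintype.card V ∧
      ((s(s, t) ∈ G ∧ ∃ L : List (List V), Th s t G L ∧ L.length ≤ 2) ∨
        ∃ x ∈ Sx G, x s(s, t) = 0 ∧ Good x) := by
  obtain ⟨G, hG, hc, ⟨h1, L, hL, hlen⟩ | ⟨x, hx, h0, hF, hg⟩⟩ := uniform hV hsymm hHD hst (le_refl (0 : ℝ))
  · refine ⟨G, hG, hc, Or.inl ⟨h1, L, hL, ?_⟩⟩
    rw [zero_add] at hlen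
    exact_mod_cast hlen
  · exact ⟨G, hG, hc, Or.inr ⟨x, hx, h0, hg rfl⟩⟩

end H47Y
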