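import Pool.Agent.Lib.H47Y.W
import Pool.Agent.Lib.H66T.Tree

/-! # H47Y, file V: the uniform theorem with the spanning tree of maximum degree at most `3` -/

set_option autoImplicit false

open H53P SimpleDraw

namespace H47Y

open H47T Pool.Agent.Lib.H66T

/-- A Hamiltonian cycle contains a spanning tree of maximum degree at most `3` (even `2`). -/
theorem tree_of_ham {n : ℕ} {G : SimpleGraph (Fin n)} {a : Fin n} {c : G.Walk a a} (hc : c.IsHamiltonianCycle) :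
    ∃ T ≤ G, T.IsTree ∧ ∀ v, (T.neighborSet v).ncard ≤ 3 := by
  refine tree_three c fun v => ?_
  have h := (SimpleGraph.Walk.isHamiltonianCycle_iff_isCycle_and_support_count_tail_eq_one.1 hc).2 v
  omega

/-- The graph `H` in `HQ` contains a spanning tree of maximum degree at most `3`. -/
theorem tree_of_hq {n : ℕ} {G : SimpleGraph (Fin n)} {s t : Fin n} (h : HQ G s t) :
    ∃ T ≤ G, T.IsTree ∧ ∀ v, (T.neighborSet v).ncard ≤ 3 := by
  obtain ⟨H, hH, -, -, -, -, hw, -⟩ := h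
  obtain ⟨w, hw1, -⟩ := hw s
  obtain ⟨T, hT, h1, h2⟩ := tree_three w hw1
  exact ⟨T, hT.trans hH, h1, h2⟩

/-- The uniform theorem in the language of simple drawings, with the spanning tree. -/
theorem uniform_tree {n : ℕ} (hn : 3 ≤ n) (D : SimpleDrawing n) {s t : Fin n} (hst : s ≠ t) {M : ℝ} (hM : 0 ≤ M) :
    ∃ G : SimpleGraph (Fin n), D.Plane G ∧ G.edgeSet.ncard = 2 * n - 3 ∧
      ((G.Adj s t ∧ ∃ L : List (List (Fin n)), SP G s t L ∧ (L.length : ℝ) ≤ M + 2) ∨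
      M + 4 ≤ n ∧
      (∃ y : Fin n → Fin n → ℝ, y s t = 0 ∧
        ((∀ a b, 0 ≤ y a b) ∧ (∀ a b, y a b = y b a) ∧ ∀ a b, y a b ≠ 0 → G.Adj a b) ∧
        (∀ a, ∑ b, y a b = if a = s ∨ a = t then M + 2 else 2) ∧
        ∀ S : Finset (Fin n), S.Nonempty → S ≠ Finset.univ →
          (if (s ∈ S ↔ t ∈ S) then 2 else M + 2) ≤ ∑ a ∈ S, ∑ b ∈ Sᶜ, y a b)) ∧
      (M = 0 → (∃ T ≤ G, T.IsTree ∧ ∀ v, (T.neighborSet v).ncard ≤ 3) ∧
        ((∃ (a : Fin n) (c : G.Walk a a), c.IsHamiltonianCycle) ∨ HQ G s t)) := by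
  obtain ⟨G, h1, h0, h | ⟨h2, h3, h4⟩⟩ := uniform_exact hn D hst hM
  · refine ⟨G, h1, h0, Or.inl h, fun hM0 => ?_⟩
    obtain ⟨h5, L, h6, h7⟩ := h
    have h8 : L.length ≤ 2 := by
      rw [hM0, zero_add] at h7
      exact_mod_cast h7
    obtain ⟨a, c, hc⟩ := ham_of_sp hn hst h5 h6 h8
    exact ⟨tree_of_ham hc, Or.inl ⟨a, c, hc⟩⟩
  · refine ⟨G, h1, h0, Or.inr ⟨h2, h3⟩, fun hM0 => ?_⟩
    rcases h4 hM0 with ⟨a, c, hc⟩ | h5
    · exact ⟨tree_of_ham hc, Or.inl ⟨a, c, hc⟩⟩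
    · exact ⟨tree_of_hq h5, Or.inr h5⟩

end H47Y
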