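import Pool.Agent.Lib.H47Y.H
import Pool.Agent.Lib.H47T.W
import Pool.Agent.Lib.H3W.Fin3

/-! # H47Y, file W: the exact theorems in the language of simple drawings -/

set_option autoImplicit false

open H53P SimpleDraw

namespace H47Y

open Finset H98P H98Z H98M H63F H96H H63L H97W H47T

theorem ncard_three {G : SimpleGraph (Fin 3)} (h : ∀ a b : Fin 3, a ≠ b → G.Adj a b) : G.edgeSet.ncard = 3 := by
  classical
  have hG : G = ⊤ := by
    ext a b
    rw [SimpleGraph.top_adj]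
    exact ⟨fun h1 => h1.ne, h a b⟩
  subst hG
  rw [← SimpleGraph.coe_edgeFinset, Set.ncard_coe_finset, SimpleGraph.card_edgeFinset_top_eq_card_choose_two,
    Fintype.card_fin]
  rfl

/-- Feasible points as weights. -/
theorem weights_of_feas {n : ℕ} (h4 : 4 ≤ n) {s t : Fin n} (hst : s ≠ t) {M : ℝ} (hM : 0 ≤ M)
    {G : Finset (Sym2 (Fin n))} (hl : ∀ v, s(v, v) ∉ G) {x : Sym2 (Fin n) → ℝ} (hx : x ∈ Sx G) (h0 : x s(s, t) = 0)
    (hF : Feas s t M x) :
    ∃ y : Fin n → Fin n → ℝ, y s t = 0 ∧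
      ((∀ a b, 0 ≤ y a b) ∧ (∀ a b, y a b = y b a) ∧ ∀ a b, y a b ≠ 0 → (gr G).Adj a b) ∧
      (∀ a, ∑ b, y a b = if a = s ∨ a = t then M + 2 else 2) ∧
      ∀ S : Finset (Fin n), S.Nonempty → S ≠ univ →
        (if (s ∈ S ↔ t ∈ S) then 2 else M + 2) ≤ ∑ a ∈ S, ∑ b ∈ Sᶜ, y a b := by
  classical
  obtain ⟨hx0, hx1, hx2⟩ := hx
  obtain ⟨hF1, hF2⟩ := hF
  have hn0 : (0 : ℝ) < (Fintype.card (Fin n) : ℝ) + M := by
    rw [Fintype.card_fin]
    have : (4 : ℝ) ≤ (n : ℝ) := by exact_mod_cast h4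
    linarith
  obtain ⟨N, hN⟩ : ∃ N : ℝ, N = (Fintype.card (Fin n) : ℝ) + M := ⟨_, rfl⟩
  rw [← hN] at hn0
  have hl' : ∀ v, x s(v, v) = 0 := fun v => hx1 _ (hl v)
  have hrq : ∀ S : Finset (Fin n), N * rq s t M S = if (s ∈ S ↔ t ∈ S) then 2 else M + 2 := by
    intro S
    unfold rq H47T.Sep
    rw [← hN, mul_div_cancel₀ _ hn0.ne']
    by_cases h5 : (s ∈ S ↔ t ∈ S)
    · rw [if_neg (not_not.2 h5), if_pos h5, add_zero]
    · rw [if_pos h5, if_neg h5, add_comm]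
  refine ⟨fun a b => N * x s(a, b), ?_, ⟨fun a b => ?_, fun a b => ?_, fun a b h5 => ?_⟩, fun a => ?_,
    fun S h5 h6 => ?_⟩
  · show N * x s(s, t) = 0
    rw [h0, mul_zero]
  · exact mul_nonneg hn0.le (hx0 _)
  · show N * x s(a, b) = N * x s(b, a)
    rw [Sym2.eq_swap]
  · refine adj_of hl (by_contra fun h6 => h5 ?_)
    show N * x s(a, b) = 0
    rw [hx1 _ h6, mul_zero]
  · rw [← mul_sum, ← cutw_vertex (hl' a), hF1 a, hrq]
    have e : (s ∈ ({a} : Finset (Fin n)) ↔ t ∈ ({a} : Finset (Fin n))) ↔ ¬ (a = s ∨ a = t) := by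
      rw [mem_singleton, mem_singleton]
      constructor
      · intro h5 h6
        rcases h6 with h6 | h6
        · exact hst (h6 ▸ (h5.1 h6.symm).symm ▸ rfl)
        · exact hst ((h5.2 h6.symm).trans h6)
      · intro h5
        rw [not_or] at h5
        exact ⟨fun h6 => absurd h6.symm h5.1, fun h6 => absurd h6.symm h5.2⟩
    by_cases h5 : a = s ∨ a = t
    · rw [if_pos h5, if_neg (fun h6 => (e.1 h6) h5)]
    · rw [if_neg h5, if_pos (e.2 h5)]
  · have h7 := mul_le_mul_of_nonneg_left (hF2 S h5 h6) hn0.le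
    rw [hrq, H97W.cutw_compl] at h7
    refine h7.trans (le_of_eq ?_)
    rw [mul_sum]
    exact sum_congr rfl fun a _ => by rw [mul_sum]

/-- T-EXACT in the language of simple drawings. -/
theorem theta_exact {n : ℕ} (hn : 3 ≤ n) (D : SimpleDrawing n) {s t : Fin n} (hst : s ≠ t) :
    ∃ G : SimpleGraph (Fin n), D.Plane G ∧ G.edgeSet.ncard = 2 * n - 3 ∧ G.Adj s t ∧
      ∃ L : List (List (Fin n)), SP G s t L := by
  rcases Nat.lt_or_ge n 4 with h4 | h4
  · have h3 : n = 3 := by omega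
    subst h3
    obtain ⟨G, h1, h2, c, h3⟩ := three D hst
    exact ⟨G, h1, ncard_three h2, h2 s t hst, [[c]], h3⟩
  · obtain ⟨G, hG, hc, hG1, L, hL⟩ := theoremTY (by rw [Fintype.card_fin]; exact h4)
      (H53P.crossT_symm (H53P.table D)) (H98W.hd_table (H53P.table D)) hst
    rw [Fintype.card_fin] at hc
    refine ⟨gr G, plane_of D hG.1, ?_, adj_of hG.2 hG1, L, sp_of_th hG.2 hL⟩
    rw [ncard_edges hG.2]
    omega

/-- The core theorem in the language of simple drawings. -/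
theorem interp_exact {n : ℕ} (hn : 3 ≤ n) (D : SimpleDrawing n) {s t : Fin n} (hst : s ≠ t) {M : ℝ} (hM : 0 ≤ M) :
    ∃ G : SimpleGraph (Fin n), D.Plane G ∧ G.edgeSet.ncard = 2 * n - 3 ∧
      ((G.Adj s t ∧ ∃ L : List (List (Fin n)), SP G s t L ∧ (L.length : ℝ) ≤ M + 2) ∨
      ∃ y : Fin n → Fin n → ℝ, y s t = 0 ∧
        ((∀ a b, 0 ≤ y a b) ∧ (∀ a b, y a b = y b a) ∧ ∀ a b, y a b ≠ 0 → G.Adj a b) ∧
        (∀ a, ∑ b, y a b = if a = s ∨ a = t then M + 2 else 2) ∧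
        ∀ S : Finset (Fin n), S.Nonempty → S ≠ univ →
          (if (s ∈ S ↔ t ∈ S) then 2 else M + 2) ≤ ∑ a ∈ S, ∑ b ∈ Sᶜ, y a b) := by
  rcases Nat.lt_or_ge n 4 with h4 | h4
  · have h3 : n = 3 := by omega
    subst h3
    obtain ⟨G, h1, h2, c, h3⟩ := three D hst
    refine ⟨G, h1, ncard_three h2, Or.inl ⟨h2 s t hst, [[c]], h3, ?_⟩⟩
    simp only [List.length_cons, List.length_nil]
    norm_num
    linarith
  · obtain ⟨G, hG, hc, h⟩ := coreY (by rw [Fintype.card_fin]; exact h4)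
      (H53P.crossT_symm (H53P.table D)) (H98W.hd_table (H53P.table D)) hst hM
    rw [Fintype.card_fin] at hc
    refine ⟨gr G, plane_of D hG.1, ?_, ?_⟩
    · rw [ncard_edges hG.2]
      omega
    · rcases h with ⟨h1, L, h2, h3⟩ | ⟨x, hx, h0, hF, -⟩
      · exact Or.inl ⟨adj_of hG.2 h1, L, sp_of_th hG.2 h2, h3⟩
      · exact Or.inr (weights_of_feas h4 hst hM hG.2 hx h0 hF)

/-- The properties of the support of a strict good point. -/
def HQ {n : ℕ} (G : SimpleGraph (Fin n)) (s t : Fin n) : Prop :=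
  ∃ H ≤ G, ¬ H.Adj s t ∧
    (∃ y : Fin n → Fin n → ℝ,
      ((∀ a b, 0 ≤ y a b) ∧ (∀ a b, y a b = y b a) ∧ ∀ a b, y a b ≠ 0 → H.Adj a b) ∧
      (∀ a b, H.Adj a b → 0 < y a b ∧ y a b < 1) ∧ (∀ a, ∑ b, y a b = 2) ∧
      (∀ S : Finset (Fin n), 2 ≤ S.card → 2 ≤ Sᶜ.card → 2 < ∑ a ∈ S, ∑ b ∈ Sᶜ, y a b)) ∧
    (∀ X : Finset (Fin n), X.card ≤ 2 → (H.induce {v | v ∉ X}).Connected) ∧
    (∀ X : Finset (Fin n), 2 ≤ X.card → (∃ a b, H.Adj a b ∧ (a ∈ X ↔ b ∈ X)) →
      Nat.card (H.induce {v | v ∉ X}).ConnectedComponent < X.card) ∧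
    (∀ u, ∃ w : H.Walk u u, (∀ v, 1 ≤ w.support.tail.count v ∧ w.support.tail.count v ≤ 2) ∧
      2 * w.length + 2 ≤ 3 * n) ∧
    (∃ F ≤ H, (∀ v, (F.neighborSet v).ncard ≤ 2) ∧ 8 * n ≤ 9 * F.edgeSet.ncard) ∧
    (5 ≤ n → ∃ (σ : Equiv.Perm (Fin n)) (F : SimpleGraph (Fin n)), F ≤ H ∧
      F ≤ (SimpleGraph.cycleGraph n).map σ.toEmbedding ∧ 4 * n ≤ 5 * F.edgeSet.ncard)

/-- Good points with weight `0` on `st`. -/
theorem ham_or_hq {n : ℕ} (h4 : 4 ≤ n) {s t : Fin n} {G : Finset (Sym2 (Fin n))} (hG : ∀ v, s(v, v) ∉ G)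
    {x : Sym2 (Fin n) → ℝ} (hx : x ∈ Sx G) (hx00 : x s(s, t) = 0) (hgood : Good x) :
    (∃ (a : Fin n) (c : (gr G).Walk a a), c.IsHamiltonianCycle) ∨ HQ (gr G) s t := by
  classical
  have hV : 3 ≤ Fintype.card (Fin n) := by rw [Fintype.card_fin]; omega
  obtain ⟨hx0, hx1, hx2⟩ := hx
  have hn0 : (0 : ℝ) < (Fintype.card (Fin n) : ℝ) := by
    rw [Fintype.card_fin]
    exact_mod_cast (by omega : 0 < n)
  have hn2 : (Fintype.card (Fin n) : ℝ) * (2 / (Fintype.card (Fin n) : ℝ)) = 2 := by field_simp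
  have hn1 : (Fintype.card (Fin n) : ℝ) * (1 / (Fintype.card (Fin n) : ℝ)) = 1 := by field_simp
  obtain ⟨N, hN⟩ : ∃ N : ℝ, N = (Fintype.card (Fin n) : ℝ) := ⟨_, rfl⟩
  rw [← hN] at hn0 hn1 hn2
  have hsm : ∀ S : Finset (Fin n), cutw (fun e => N * x e) S = N * cutw x S := by
    intro S
    unfold cutw
    rw [mul_sum]
    exact sum_congr rfl fun e _ => by ring
  have hfr0 : ∀ G' : Finset (Sym2 (Fin n)), (∀ e, e ∉ G' → x e = 0) → (∀ v, s(v, v) ∉ G') →
      FracHam G' fun e => N * x e := by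
    intro G' h5 h6
    refine ⟨fun e => mul_nonneg hn0.le (hx0 e), fun e he => ?_, h6, fun v => ?_, fun S h5 h6 => ?_⟩
    · show N * x e = 0
      rw [h5 e he, mul_zero]
    · rw [hsm, hgood.1 v, ← hN, hn2]
    · rw [hsm]
      calc (2 : ℝ) = N * (2 / N) := hn2.symm
        _ ≤ _ := mul_le_mul_of_nonneg_left (by have := hgood.2.1 S h5 h6; rwa [← hN] at this) hn0.le
  rcases hgood.2.2 with h | h
  · refine Or.inl (ham_walk hV (hfr0 G hx1 hG) fun e => ?_)
    rcases h e with h0 | h0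
    · left
      show N * x e = 0
      rw [h0, mul_zero]
    · right
      show N * x e = 1
      rw [h0, ← hN, hn1]
  · obtain ⟨G', hG'⟩ : ∃ G', G' = G.filter fun e => 0 < x e := ⟨_, rfl⟩
    have hsub : G' ⊆ G := by
      rw [hG']
      exact filter_subset _ _
    have hpos : ∀ e ∈ G', 0 < x e := fun e he => by
      rw [hG'] at he
      exact (mem_filter.1 he).2
    have hfr : FracHam G' fun e => N * x e := by
      refine hfr0 G' (fun e he => ?_) fun v hv => hG v (hsub hv)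
      by_contra hne
      rw [hG'] at he
      exact he (mem_filter.2 ⟨by_contra fun h6 => hne (hx1 e h6), lt_of_le_of_ne (hx0 e) (Ne.symm hne)⟩)
    have hs : ∀ S : Finset (Fin n), 2 ≤ S.card → 2 ≤ (univ \ S).card → 2 < cutw (fun e => N * x e) S := by
      intro S h5 h6
      rw [hsm]
      calc (2 : ℝ) = N * (2 / N) := hn2.symm
        _ < _ := mul_lt_mul_of_pos_left (by have := h ⟨S, h5, h6⟩; rwa [← hN] at this) hn0
    have hp : ∀ e ∈ G', 0 < N * x e := fun e he => mul_pos hn0 (hpos e he)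
    obtain ⟨f1, f2, f3, f4, f5, -, f7, f8⟩ := strict_all h4 hfr hs
    refine Or.inr ⟨gr G', ?_, ?_, ⟨fun a b => N * x s(a, b), f1, fun a b hab => ?_, f4, f5⟩, f2,
      fun X hX hab => ?_, f7, f8, fun h5 => H3W.cycle_in hfr h5⟩
    · intro a b hab
      rw [SimpleGraph.fromEdgeSet_adj] at hab ⊢
      exact ⟨hsub hab.1, hab.2⟩
    · intro h5
      rw [SimpleGraph.fromEdgeSet_adj] at h5
      have := hpos _ (mem_coe.1 h5.1)
      rw [hx00] at this
      exact lt_irrefl _ this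
    · rw [SimpleGraph.fromEdgeSet_adj] at hab
      exact ⟨hp _ (mem_coe.1 hab.1), f3 a b⟩
    · obtain ⟨a, b, hab, habX⟩ := hab
      rw [SimpleGraph.fromEdgeSet_adj] at hab
      have h1 := comp_le' (G := G') (k := X.card - 1) (S := X) fun c hc => by
        have h2 := tough_strict hfr hp hs hX hab.1 habX hc
        omega
      omega

/-- Weights as in `weights_of_feas` force `M + 4 ≤ n`. -/
theorem le_of_weights {n : ℕ} (h4 : 4 ≤ n) {s t : Fin n} (hst : s ≠ t) {M : ℝ} {y : Fin n → Fin n → ℝ}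
    (h0 : y s t = 0) (hd : ∀ a, y a a = 0) (hy0 : ∀ a b, 0 ≤ y a b) (hys : ∀ a b, y a b = y b a)
    (hsum : ∀ a, ∑ b, y a b = if a = s ∨ a = t then M + 2 else 2)
    (hcut : ∀ S : Finset (Fin n), S.Nonempty → S ≠ univ →
      (if (s ∈ S ↔ t ∈ S) then 2 else M + 2) ≤ ∑ a ∈ S, ∑ b ∈ Sᶜ, y a b) : M + 4 ≤ n := by
  classical
  have hle : ∀ v, v ≠ s → v ≠ t → y s v ≤ 1 := by
    intro v hvs hvt
    have hne : ({s, v} : Finset (Fin n)) ≠ univ := by
      intro h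
      have h1 := congrArg Finset.card h
      rw [card_univ, Fintype.card_fin, card_pair hvs.symm] at h1
      omega
    have h1 := hcut {s, v} ⟨s, mem_insert_self _ _⟩ hne
    rw [if_neg (by
      intro h
      have h2 := h.1 (mem_insert_self _ _)
      rw [mem_insert, mem_singleton] at h2
      rcases h2 with h2 | h2
      · exact hst h2.symm
      · exact hvt h2.symm), sum_pair hvs.symm] at h1
    have h2 : ∀ a, ∑ b ∈ ({s, v} : Finset (Fin n))ᶜ, y a b = (∑ b, y a b) - (y a s + y a v) := by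
      intro a
      have h3 := sum_add_sum_compl ({s, v} : Finset (Fin n)) fun b => y a b
      rw [sum_pair hvs.symm] at h3
      linarith
    rw [h2, h2, hsum s, hsum v, if_pos (Or.inl rfl), if_neg (by simp [hvs, hvt]), hd s, hd v, hys v s] at h1
    linarith
  have h1 : M + 2 ≤ ∑ b : Fin n, if b = s ∨ b = t then (0 : ℝ) else 1 := by
    have h2 := hsum s
    rw [if_pos (Or.inl rfl)] at h2
    rw [← h2]
    refine sum_le_sum fun b _ => ?_
    by_cases hb : b = s ∨ b = t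
    · rw [if_pos hb]
      rcases hb with rfl | rfl
      · exact (hd b).le
      · exact h0.le
    · rw [if_neg hb]
      rw [not_or] at hb
      exact hle b hb.1 hb.2
  have h2 : (∑ b : Fin n, if b = s ∨ b = t then (0 : ℝ) else 1) = (n : ℝ) - 2 := by
    have h3 : (univ.filter fun b : Fin n => ¬ (b = s ∨ b = t)) = univ \ {s, t} := by
      ext b
      simp
    have h4' : ∀ b : Fin n, (if b = s ∨ b = t then (0 : ℝ) else 1) = if ¬ (b = s ∨ b = t) then 1 else 0 := by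
      intro b
      by_cases hb : b = s ∨ b = t
      · rw [if_pos hb, if_neg (not_not.2 hb)]
      · rw [if_neg hb, if_pos hb]
    rw [sum_congr rfl fun b _ => h4' b, sum_boole, h3, card_sdiff_of_subset (subset_univ _), card_univ,
      Fintype.card_fin, card_pair hst, Nat.cast_sub (by omega)]
    norm_num
  linarith

/-- The uniform theorem in the language of simple drawings. -/
theorem uniform_exact {n : ℕ} (hn : 3 ≤ n) (D : SimpleDrawing n) {s t : Fin n} (hst : s ≠ t) {M : ℝ} (hM : 0 ≤ M) :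
    ∃ G : SimpleGraph (Fin n), D.Plane G ∧ G.edgeSet.ncard = 2 * n - 3 ∧
      ((G.Adj s t ∧ ∃ L : List (List (Fin n)), SP G s t L ∧ (L.length : ℝ) ≤ M + 2) ∨
      M + 4 ≤ n ∧
      (∃ y : Fin n → Fin n → ℝ, y s t = 0 ∧
        ((∀ a b, 0 ≤ y a b) ∧ (∀ a b, y a b = y b a) ∧ ∀ a b, y a b ≠ 0 → G.Adj a b) ∧
        (∀ a, ∑ b, y a b = if a = s ∨ a = t then M + 2 else 2) ∧
        ∀ S : Finset (Fin n), S.Nonempty → S ≠ univ →
          (if (s ∈ S ↔ t ∈ S) then 2 else M + 2) ≤ ∑ a ∈ S, ∑ b ∈ Sᶜ, y a b) ∧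
      (M = 0 → (∃ (a : Fin n) (c : G.Walk a a), c.IsHamiltonianCycle) ∨ HQ G s t)) := by
  rcases Nat.lt_or_ge n 4 with h4 | h4
  · have h3 : n = 3 := by omega
    subst h3
    obtain ⟨G, h1, h2, c, h3⟩ := three D hst
    refine ⟨G, h1, ncard_three h2, Or.inl ⟨h2 s t hst, [[c]], h3, ?_⟩⟩
    simp only [List.length_cons, List.length_nil]
    norm_num
    linarith
  · obtain ⟨G, hG, hc, h⟩ := uniform (by rw [Fintype.card_fin]; exact h4)
      (H53P.crossT_symm (H53P.table D)) (H98W.hd_table (H53P.table D)) hst hM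
    rw [Fintype.card_fin] at hc
    refine ⟨gr G, plane_of D hG.1, ?_, ?_⟩
    · rw [ncard_edges hG.2]
      omega
    · rcases h with ⟨h1, L, h2, h3⟩ | ⟨x, hx, h0, hF, hg⟩
      · exact Or.inl ⟨adj_of hG.2 h1, L, sp_of_th hG.2 h2, h3⟩
      · obtain ⟨y, y0, y1, y2, y3⟩ := weights_of_feas h4 hst hM hG.2 hx h0 hF
        refine Or.inr ⟨le_of_weights h4 hst y0 (fun a => ?_) y1.1 y1.2.1 y2 y3, ⟨y, y0, y1, y2, y3⟩,
          fun hM0 => ham_or_hq h4 hG.2 hx h0 (hg hM0)⟩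
        by_contra hne
        exact (gr G).loopless.irrefl a (y1.2.2 a a hne)

end H47Y
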